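import Pool.Agent.Work.MP_dcf6a6_tv.Interface

/-! Block DENS: nonempty basic open sets are dense. -/

open CategoryTheory AlgebraicGeometry

namespace Pool.TVar.helper45

open Pool.TVar

theorem stmt_DENS : Stmt_DENS := by
  intro A _ _ _ 𝒜 _ g m _ hg0
  rw [dense_iff_inter_open]
  intro U hU hne
  obtain ⟨x, hx⟩ := hne
  let x' : ProjectiveSpectrum 𝒜 := x
  have hbot : (⊥ : HomogeneousIdeal 𝒜).toIdeal.IsPrime := by
    rw [HomogeneousIdeal.toIdeal_bot]
    exact Ideal.isPrime_bot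
  let η : ProjectiveSpectrum 𝒜 := ⟨⊥, hbot, fun h => x'.not_irrelevant_le (h.trans bot_le)⟩
  have hU' : IsOpen (U : Set (ProjectiveSpectrum 𝒜)) := hU
  obtain ⟨_, ⟨r, rfl⟩, hxr, hrU⟩ :=
    (ProjectiveSpectrum.isTopologicalBasis_basic_opens 𝒜).exists_subset_of_mem_open
      (show x' ∈ (U : Set (ProjectiveSpectrum 𝒜)) from hx) hU'
  have hr0 : r ≠ 0 := by
    rintro rfl
    exact ((ProjectiveSpectrum.mem_basicOpen 𝒜 0 x').1 hxr) (zero_mem _)
  have mem : ∀ a : A, a ≠ 0 → η ∈ ProjectiveSpectrum.basicOpen 𝒜 a := by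
    intro a ha
    rw [ProjectiveSpectrum.mem_basicOpen]
    intro h
    have h1 : a ∈ (⊥ : HomogeneousIdeal 𝒜).toIdeal := h
    rw [HomogeneousIdeal.toIdeal_bot, Ideal.mem_bot] at h1
    exact ha h1
  exact ⟨η, hrU (mem r hr0), mem g hg0⟩

end Pool.TVar.helper45
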