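import Pool.Agent.Work.MP_dcf6a6_tv.Interface

/-! Block GCD: Bezout with natural exponents. -/

namespace Pool.TVar.helper45

open Pool.TVar

theorem bez {V : Type} (S : Finset V) (wt : V → ℕ) :
    ∃ f : V → ℤ, ∑ v ∈ S, f v * (wt v : ℤ) = ((S.gcd wt : ℕ) : ℤ) := by
  classical
  induction S using Finset.induction_on with
  | empty => exact ⟨fun _ => 0, by simp⟩
  | insert a S ha ih =>
    obtain ⟨f, hf⟩ := ih
    rw [Finset.gcd_insert]
    have hb := Nat.gcd_eq_gcd_ab (wt a) (S.gcd wt)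
    refine ⟨fun v => if v = a then Nat.gcdA (wt a) (S.gcd wt)
      else f v * Nat.gcdB (wt a) (S.gcd wt), ?_⟩
    rw [Finset.sum_insert ha]
    have e : ∑ v ∈ S, (if v = a then Nat.gcdA (wt a) (S.gcd wt)
        else f v * Nat.gcdB (wt a) (S.gcd wt)) * (wt v : ℤ) =
        (∑ v ∈ S, f v * (wt v : ℤ)) * Nat.gcdB (wt a) (S.gcd wt) := by
      rw [Finset.sum_mul]
      refine Finset.sum_congr rfl fun v hv => ?_
      have hva : v ≠ a := fun h => ha (h ▸ hv)
      rw [if_neg hva]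
      ring
    have e3 : (fun v => if v = a then Nat.gcdA (wt a) (S.gcd wt)
      else f v * Nat.gcdB (wt a) (S.gcd wt)) a = Nat.gcdA (wt a) (S.gcd wt) := if_pos rfl
    rw [e, hf, e3]
    have e2 : gcd (wt a) (S.gcd wt) = Nat.gcd (wt a) (S.gcd wt) := rfl
    rw [e2, hb]
    ring

theorem stmt_GCD : Stmt_GCD := by
  intro V S wt h
  obtain ⟨f, hf⟩ := bez S wt
  refine ⟨fun v => (f v).toNat, fun v => (-(f v)).toNat, ?_⟩
  rw [h] at hf
  have key : ((∑ v ∈ S, (f v).toNat * wt v : ℕ) : ℤ) =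
      ((∑ v ∈ S, (-(f v)).toNat * wt v + 1 : ℕ) : ℤ) := by
    push_cast
    rw [Nat.cast_one] at hf
    rw [← hf, ← Finset.sum_add_distrib]
    refine Finset.sum_congr rfl fun v _ => ?_
    have h1 := Int.toNat_sub_toNat_neg (f v)
    have h2 : ((f v).toNat : ℤ) = f v + ((-(f v)).toNat : ℤ) := by omega
    rw [h2]
    ring
  exact_mod_cast key

end Pool.TVar.helper45
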